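import Pool.Agent.Lib.MP_b4a791_lc.A.Sib

/-!
# MP_b4a791_lc, Part B: the free words below a word
-/

namespace Pool.Agent.Lib.MP_b4a791_lc

/-- Shift of levels. -/
def sh (d : ℕ) (w : Word) : Word := w.map fun m => (m.1 + d, m.2)

/-- The copy of the free words below `W0`. -/
def iot (W0 w : Word) : Word := W0 ++ sh (dep W0) w

lemma iot_nil (W0 : Word) : iot W0 [] = W0 := by simp [iot, sh]

lemma length_iot (W0 w : Word) : (iot W0 w).length = W0.length + w.length := by
  simp [iot, sh]

lemma iot_snoc (W0 w : Word) (m : Move) :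
    iot W0 (w ++ [m]) = iot W0 w ++ [(m.1 + dep W0, m.2)] := by
  simp [iot, sh]

lemma iot_prefix (W0 : Word) {w w' : Word} (h : w <+: w') : iot W0 w <+: iot W0 w' := by
  obtain ⟨L, rfl⟩ := h
  exact ⟨sh (dep W0) L, by simp [iot, sh]⟩

lemma path_iot (W0 w : Word) : path (iot W0 w) = path W0 ++ path w := by
  induction w using List.reverseRecOn with
  | nil => simp [iot_nil]
  | append_singleton w m ih =>
    rw [iot_snoc, path_snoc, ih, path_snoc]
    have h : List.take (m.1 + dep W0) (path W0 ++ path w) = path W0 ++ List.take m.1 (path w) := by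
      have : m.1 + dep W0 = (path W0).length + m.1 := by
        simp [dep, Nat.add_comm]
      rw [this, List.take_length_add_append]
    show List.take (m.1 + dep W0) (path W0 ++ path w) ++ [m.2] = _
    rw [h, List.append_assoc]

lemma dep_iot (W0 w : Word) : dep (iot W0 w) = dep W0 + dep w := by
  simp [dep, path_iot]

lemma ext_iot (W0 : Word) {w w' : Word} {k : ℕ} (h : Ext k w w') :
    Ext (k + dep W0) (iot W0 w) (iot W0 w') := by
  obtain ⟨L, rfl, hL⟩ := h
  refine ⟨sh (dep W0) L, by simp [iot, sh], fun m hm => ?_⟩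
  simp only [sh, List.mem_map] at hm
  obtain ⟨m', hm', rfl⟩ := hm
  exact Nat.add_le_add_right (hL m' hm') _

/-- Every extension in the innermost node of `W0` is a copy. -/
lemma exists_iot {W0 w V : Word} {k : ℕ} (h : Ext (k + dep W0) (iot W0 w) V) :
    ∃ w', V = iot W0 w' ∧ Ext k w w' := by
  obtain ⟨L, rfl, hL⟩ := h
  refine ⟨w ++ L.map fun m => (m.1 - dep W0, m.2), ?_, ⟨_, rfl, ?_⟩⟩
  · have : L = sh (dep W0) (L.map fun m => (m.1 - dep W0, m.2)) := by
      simp only [sh, List.map_map]
      conv_lhs => rw [← List.map_id L]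
      refine List.map_congr_left fun m hm => ?_
      have h1 := hL m hm
      have h2 : m.1 - dep W0 + dep W0 = m.1 := by omega
      simp [Function.comp, h2]
    conv_lhs => rw [this]
    simp [iot, sh]
  · intro m hm
    simp only [List.mem_map] at hm
    obtain ⟨m', hm', rfl⟩ := hm
    have h1 := hL m' hm'
    show k ≤ m'.1 - dep W0
    omega

private lemma iot_get (W0 w : Word) (K : ℕ) : (path (iot W0 w))[K + dep W0]? = (path w)[K]? := by
  rw [path_iot, List.getElem?_append_right (by simp [dep])]
  simp [dep]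

theorem sibStr_iot (W0 : Word) : SibStr (iot W0) := by
  intro v2 w2 v4 w4 K q2 q4 h1 h2 h3 h4 h5 h6
  refine ⟨K + dep W0, q2, q4, ?_, ?_, ?_, ext_iot W0 h2, ?_, h6, Iff.rfl⟩
  · rw [iot_get, h4]
  · rw [iot_get, h5]
  · have := ext_iot W0 h1
    rwa [Nat.add_right_comm] at this
  · have := ext_iot W0 h3
    rwa [Nat.add_right_comm] at this

end Pool.Agent.Lib.MP_b4a791_lc
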