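import Pool.Agent.Lib.MP_b4a791_lc.B.Step

/-!
# MP_b4a791_lc, Part B: the limit of the stages
-/

namespace Pool.Agent.Lib.MP_b4a791_lc

variable {F : ℕ → List Bool → ℕ → Option Bool} {S : ℕ → Stage} {θ : ℕ → Word → Word}

/-- Composition of the maps `θ m, …, θ (m + k - 1)`: words of stage `m + k` as words of
stage `m`. -/
def TT (θ : ℕ → Word → Word) : ℕ → ℕ → Word → Word
  | _, 0, w => w
  | m, k + 1, w => θ m (TT θ (m + 1) k w)

/-- The oracle number `j`. -/
def XL (S : ℕ → Stage) (j : ℕ) : Set ℕ := {y | ∃ n, j ≤ n ∧ ((S n).O j [])[y]? = some true}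

/-- The designated points of stage `m + 1`. -/
def GLs (S : ℕ → Stage) (θ : ℕ → Word → Word) (m : ℕ) : Set ℕ :=
  {y | ∃ k, y ∈ (S (m + 1)).pt (TT θ (m + 1) k [])}

theorem Chain.TT_τ (h : Chain F S θ) (m k : ℕ) (w : Word) :
    (S (m + k)).τ w = (S m).τ (TT θ m k w) := by
  induction k generalizing m w with
  | zero => rfl
  | succ k ih =>
    have e : m + (k + 1) = m + 1 + k := by omega
    rw [e, ih (m + 1) w, (h.next m).τ]
    rfl

theorem Chain.TT_O (h : Chain F S θ) (m k i : ℕ) (hi : i ≤ m) (w : Word) :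
    (S (m + k)).O i w = (S m).O i (TT θ m k w) := by
  induction k generalizing m w with
  | zero => rfl
  | succ k ih =>
    have e : m + (k + 1) = m + 1 + k := by omega
    rw [e, ih (m + 1) (by omega) w, (h.next m).O i _ (by omega)]
    rfl

private theorem Limit_TT_add (m k d : ℕ) (w : Word) :
    TT θ m (k + d) w = TT θ m k (TT θ (m + k) d w) := by
  induction k generalizing m w with
  | zero => simp [TT]
  | succ k ih =>
    have e : k + 1 + d = k + d + 1 := by omega
    have e2 : m + (k + 1) = m + 1 + k := by omega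
    rw [e, e2]
    show θ m (TT θ (m + 1) (k + d) w) = θ m (TT θ (m + 1) k (TT θ (m + 1 + k) d w))
    rw [ih]

private theorem Limit_TT_mono (h : Chain F S θ) (m k : ℕ) {w w' : Word} (hw : w <+: w') :
    TT θ m k w <+: TT θ m k w' := by
  induction k generalizing m w w' with
  | zero => exact hw
  | succ k ih => exact (h.next m).mono _ _ (ih (m + 1) hw)

/-- The words `TT θ m k []` form an increasing chain. -/
theorem Chain.TT_prefix (h : Chain F S θ) (m : ℕ) {k k' : ℕ} (hk : k ≤ k') :
    TT θ m k [] <+: TT θ m k' [] := by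
  obtain ⟨d, rfl⟩ := Nat.exists_eq_add_of_le hk
  rw [Limit_TT_add m k d []]
  exact Limit_TT_mono h m k List.nil_prefix

theorem Chain.len_mono (h : Chain F S θ) : StrictMono fun n => ((S n).τ []).length := by
  refine strictMono_nat_of_lt_succ fun n => ?_
  show ((S n).τ []).length < ((S (n + 1)).τ []).length
  rw [(h.next n).τ]
  have hne := (h.next n).ne
  rcases hw : θ n [] with _ | ⟨mv, L⟩
  · exact absurd hw hne
  · have h1 := (h.val n).length_lt [] mv
    have h2 : ([] ++ [mv] : Word) <+: mv :: L := ⟨L, rfl⟩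
    exact lt_of_lt_of_le h1 ((h.val n).mono _ _ h2).length_le

theorem Chain.len_ge (h : Chain F S θ) (n : ℕ) : n ≤ ((S n).τ []).length := by
  have := h.len_mono.id_le n
  exact this

/-- The words `TT θ m k []` get arbitrarily long. -/
theorem Chain.TT_len (h : Chain F S θ) (m N : ℕ) : ∃ k, N ≤ (TT θ m k []).length := by
  have key : ∀ k, (TT θ m k []).length < (TT θ m (k + 1) []).length := by
    intro k
    have hp := h.TT_prefix m (Nat.le_succ k)
    refine lt_of_le_of_ne hp.length_le fun he => ?_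
    have heq : TT θ m k [] = TT θ m (k + 1) [] := hp.eq_of_length he
    have h1 := h.len_mono (show m + k < m + (k + 1) by omega)
    simp only [h.TT_τ, heq, lt_irrefl] at h1
  exact ⟨N, (strictMono_nat_of_lt_succ key).id_le N⟩

private lemma Limit_O_prefix (h : Chain F S θ) {j n n' : ℕ} (hj : j ≤ n) (hn : n ≤ n') :
    (S n).O j [] <+: (S n').O j [] := by
  obtain ⟨k, rfl⟩ := Nat.exists_eq_add_of_le hn
  rw [h.TT_O n k j hj []]
  exact (h.val n).Omono j _ _ List.nil_prefix

private lemma Limit_O_get (h : Chain F S θ) {j n n' : ℕ} (hj : j ≤ n) (hn : n ≤ n') {y : ℕ}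
    (hy : y < ((S n).τ []).length) : ((S n').O j [])[y]? = ((S n).O j [])[y]? := by
  obtain ⟨t, ht⟩ := Limit_O_prefix h hj hn
  rw [← ht, List.getElem?_append_left]
  rw [(h.val n).Olen]
  exact hy

private lemma Limit_mem_XL (h : Chain F S θ) {j n : ℕ} (hj : j ≤ n) {y : ℕ}
    (hy : y < ((S n).τ []).length) : y ∈ XL S j ↔ ((S n).O j [])[y]? = some true := by
  constructor
  · rintro ⟨n', hj', hn'⟩
    have hy' : y < ((S n').τ []).length := by
      rw [← (h.val n').Olen j]
      exact (List.getElem?_eq_some_iff.1 hn').1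
    rcases le_total n n' with hnn | hnn
    · rw [← Limit_O_get h hj hnn hy]
      exact hn'
    · rw [Limit_O_get h hj' hnn hy']
      exact hn'
  · intro hh
    exact ⟨n, hj, hh⟩

theorem Chain.pre_XL (h : Chain F S θ) {j n : ℕ} (hj : j ≤ n) :
    pre (XL S j) ((S n).τ []).length = (S n).O j [] := by
  classical
  have hl : (pre (XL S j) ((S n).τ []).length).length = ((S n).O j []).length := by
    rw [(h.val n).Olen]
    simp [pre]
  refine List.ext_getElem hl fun y h1 h2 => ?_
  have hy : y < ((S n).τ []).length := by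
    rw [(h.val n).Olen] at h2
    exact h2
  have h3 := Limit_mem_XL h hj hy
  rw [List.getElem?_eq_getElem h2] at h3
  have h4 : (pre (XL S j) ((S n).τ []).length)[y] = decide (y ∈ XL S j) := by
    simp [pre]
  rw [h4]
  rcases hb : ((S n).O j [])[y] with _ | _
  · rw [hb] at h3
    simp [h3]
  · rw [hb] at h3
    simp [h3]

private lemma Limit_GLs (h : Chain F S θ) (m k : ℕ) {a : ℕ}
    (ha : a < ((S (m + 1 + k)).τ []).length) :
    a ∈ GLs S θ m ↔ a ∈ (S (m + 1)).pt (TT θ (m + 1) k []) := by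
  rw [h.TT_τ (m + 1) k []] at ha
  constructor
  · rintro ⟨k', hk'⟩
    rcases le_total k k' with hkk | hkk
    · exact ((h.val (m + 1)).pt_prefix (h.TT_prefix (m + 1) hkk)).2 a hk' ha
    · exact ((h.val (m + 1)).pt_prefix (h.TT_prefix (m + 1) hkk)).1.subset hk'
  · intro hh
    exact ⟨k, hh⟩

theorem Chain.XL_succ (h : Chain F S θ) (m : ℕ) : XL S (m + 1) = join (GLs S θ m) (XL S m) := by
  have key : ∀ y, y ∈ XL S (m + 1) ↔
      ((y % 2 = 0 ∧ y / 2 ∈ GLs S θ m) ∨ (y % 2 ≠ 0 ∧ y / 2 ∈ XL S m)) := by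
    intro y
    have hy0 : y < ((S (m + 1 + y)).τ []).length := by
      have := h.len_ge (m + 1 + y)
      omega
    have hy2 : y / 2 < ((S (m + 1 + y)).τ []).length := by omega
    rw [Limit_mem_XL h (by omega : m + 1 ≤ m + 1 + y) hy0,
      Limit_GLs h m y hy2, Limit_mem_XL h (by omega : m ≤ m + 1 + y) hy2,
      h.TT_O (m + 1) y (m + 1) le_rfl [], h.TT_O (m + 1) y m (by omega) [],
      (h.next m).Onew]
    rw [h.TT_τ (m + 1) y []] at hy0 hy2
    have h1 : ((jn (sL ((S (m + 1)).pt (TT θ (m + 1) y []))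
        ((S (m + 1)).τ (TT θ (m + 1) y [])).length) ((S (m + 1)).O m (TT θ (m + 1) y []))
        ((S (m + 1)).τ (TT θ (m + 1) y [])).length)[y]?) =
        some (if y % 2 = 0 then decide (y / 2 ∈ (S (m + 1)).pt (TT θ (m + 1) y []))
          else (((S (m + 1)).O m (TT θ (m + 1) y []))[y / 2]?).getD false) := by
      have h2 : (sL ((S (m + 1)).pt (TT θ (m + 1) y []))
          ((S (m + 1)).τ (TT θ (m + 1) y [])).length)[y / 2]? =
          some (decide (y / 2 ∈ (S (m + 1)).pt (TT θ (m + 1) y []))) := by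
        simp [sL, List.getElem?_range hy2]
      unfold jn
      rw [List.getElem?_map, List.getElem?_range hy0, Option.map_some, h2]
      rfl
    rw [h1]
    have hlen : y / 2 < ((S (m + 1)).O m (TT θ (m + 1) y [])).length := by
      rw [(h.val (m + 1)).Olen]
      exact hy2
    rw [List.getElem?_eq_getElem hlen]
    by_cases hp : y % 2 = 0
    · simp [hp]
    · simp [hp]
  ext y
  rw [key y]
  constructor
  · rintro (⟨h1, h2⟩ | ⟨h1, h2⟩)
    · exact Or.inl ⟨y / 2, h2, by omega⟩
    · exact Or.inr ⟨y / 2, h2, by omega⟩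
  · rintro (⟨a, h1, h2⟩ | ⟨a, h1, h2⟩)
    · left
      have e : y / 2 = a := by omega
      exact ⟨by omega, by rw [e]; exact h1⟩
    · right
      have e : y / 2 = a := by omega
      exact ⟨by omega, by rw [e]; exact h1⟩

private lemma Limit_pw : ∀ (l : List ℕ) (_ : l.Pairwise (· < ·)) (i : ℕ) (hi : i < l.length),
    i ≤ l[i] := by
  intro l hl i
  induction i with
  | zero => intro hi; exact Nat.zero_le _
  | succ i ih =>
    intro hi
    have h1 := ih (by omega)
    have h2 : l[i] < l[i + 1] := List.pairwise_iff_getElem.1 hl i (i + 1) (by omega) hi (by omega)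
    omega

theorem Chain.GL_unb (h : Chain F S θ) (m : ℕ) : Unb (GLs S θ m) := by
  intro N
  obtain ⟨k, hk⟩ := h.TT_len (m + 1) (N + 2)
  have hl : N + 1 < ((S (m + 1)).pt (TT θ (m + 1) k [])).length := by
    rw [(h.val (m + 1)).ptlen]
    omega
  have h1 := Limit_pw _ ((h.val (m + 1)).pt_lt (TT θ (m + 1) k [])).1 (N + 1) hl
  exact ⟨_, ⟨k, List.getElem_mem hl⟩, h1⟩

/-- The base coloring read from `XL S 0`. -/
theorem Chain.clr_XL (h : Chain F S θ) {x y n : ℕ} (hxy : x < y)
    (hn : prc x y < ((S n).τ []).length) : clr (XL S 0) x y = gB ((S n).τ []) x y := by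
  have h1 := Limit_mem_XL h (Nat.zero_le n) hn
  rw [(h.val n).O0, Str0_get hxy hn] at h1
  unfold clr
  rcases hb : gB ((S n).τ []) x y with _ | _
  · rw [hb] at h1
    simp [h1]
  · rw [hb] at h1
    simp [h1]

end Pool.Agent.Lib.MP_b4a791_lc
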