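import Pool.Agent.Lib.MP_b4a791_lc.B.Limit
import Pool.Agent.Lib.MP_b4a791_lc.D.NF
import Pool.Agent.Lib.MP_b4a791_lc.D.Enum
import Pool.Agent.Lib.MP_b4a791_lc.D.Join

/-!
# MP_b4a791_lc, Part B: the first model (`EM` holds, `RT²₂(1302)` fails)
-/

namespace Pool.Agent.Lib.MP_b4a791_lc

variable {F : ℕ → List Bool → ℕ → Option Bool} {S : ℕ → Stage} {θ : ℕ → Word → Word}

open Classical in
private lemma ModelB_dec (h : Chain F S θ) (hF : ∀ e, MonoF (F e)) {e j m : ℕ} (hj : j ≤ m)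
    {Z : Set ℕ} (hZ : ∀ x, ∃ n, F e (pre (XL S j) n) x = some (decide (x ∈ Z))) (x : ℕ) :
    ∃ k0, ∀ k, k0 ≤ k → F e ((S m).O j (TT θ m k [])) x = some (decide (x ∈ Z)) := by
  obtain ⟨n, hn⟩ := hZ x
  refine ⟨n, fun k hk => ?_⟩
  rw [← h.TT_O m k j hj, ← h.pre_XL (j := j) (n := m + k) (by omega)]
  refine hF e _ _ x _ (pre_prefix _ ?_) hn
  exact hk.trans ((Nat.le_add_left k m).trans (h.len_ge (m + k)))

open Classical in
/-- The positive requirement in the limit: `GLs S θ m` is transitive for `Y`. -/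
theorem Chain.pos_lim (h : Chain F S θ) (hF : ∀ e, MonoF (F e)) {e j : ℕ} {Y : Set ℕ}
    (hY : ∀ x, ∃ n, F e (pre (XL S j) n) x = some (decide (x ∈ Y))) :
    ∀ x ∈ GLs S θ (Nat.pair e j), ∀ y ∈ GLs S θ (Nat.pair e j), ∀ z ∈ GLs S θ (Nat.pair e j),
      x < y → y < z → ∀ v, clr Y x y = v → clr Y y z = v → clr Y x z = v := by
  intro x hx y hy z hz hxy hyz v hv1 hv2
  set m := Nat.pair e j with hm
  have hjm : j ≤ m + 1 := (Nat.right_le_pair e j).trans (Nat.le_succ _)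
  have hpos := h.pos m
  rw [hm, Nat.unpair_pair] at hpos
  rw [← hm] at hpos
  rcases hpos with ⟨n, hn⟩ | hT
  · obtain ⟨k0, hk0⟩ := ModelB_dec h hF hjm hY n
    have h1 := hk0 k0 le_rfl
    have h2 := hn (TT θ (m + 1) k0 [])
    simp only at h1 h2
    rw [h1] at h2
    exact absurd h2 (by simp)
  · obtain ⟨kx, hkx⟩ := hx
    obtain ⟨ky, hky⟩ := hy
    obtain ⟨kz, hkz⟩ := hz
    obtain ⟨a1, ha1⟩ := ModelB_dec h hF hjm hY (prc x y)
    obtain ⟨a2, ha2⟩ := ModelB_dec h hF hjm hY (prc y z)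
    obtain ⟨a3, ha3⟩ := ModelB_dec h hF hjm hY (prc x z)
    set k := kx + ky + kz + a1 + a2 + a3 with hk
    have hpt : ∀ {t k' : ℕ}, k' ≤ k → t ∈ (S (m + 1)).pt (TT θ (m + 1) k' []) →
        t ∈ (S (m + 1)).pt (TT θ (m + 1) k []) := by
      intro t k' hk' ht
      exact ((h.val (m + 1)).pt_prefix (h.TT_prefix (m + 1) hk')).1.subset ht
    have b1 := ha1 k (by omega)
    have b2 := ha2 k (by omega)
    have b3 := ha3 k (by omega)
    have e1 : decide (prc x y ∈ Y) = v := hv1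
    have e2 : decide (prc y z ∈ Y) = v := hv2
    rw [e1] at b1
    rw [e2] at b2
    have b4 := (hT (TT θ (m + 1) k [])).2 x (hpt (by omega) hkx) y (hpt (by omega) hky) z
      (hpt (by omega) hkz) hxy hyz v b1 b2
    simp only at b3 b4
    rw [b3] at b4
    exact Option.some_injective _ b4

open Classical in
/-- The negative requirement in the limit. -/
theorem Chain.neg_lim (h : Chain F S θ) (hF : ∀ e, MonoF (F e)) {e j : ℕ} {H : Set ℕ}
    (hH : ∀ x, ∃ n, F e (pre (XL S j) n) x = some (decide (x ∈ H))) (hu : Unb H) :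
    ¬ Av (clr (XL S 0)) H := by
  set m := Nat.pair e j with hm
  have hjm : j ≤ m + 1 := (Nat.right_le_pair e j).trans (Nat.le_succ _)
  have hneg := h.neg m
  rw [hm, Nat.unpair_pair] at hneg
  rw [← hm] at hneg
  rcases hneg with ⟨N, hN⟩ | ⟨y0, y1, y2, y3, hy3, f0, f1, f2, f3, hC⟩
  · obtain ⟨y, hyH, hy⟩ := hu N
    obtain ⟨k0, hk0⟩ := ModelB_dec h hF hjm hH y
    have h1 := hk0 k0 le_rfl
    rw [decide_eq_true hyH] at h1
    exact absurd h1 (hN (TT θ (m + 1) k0 []) y hy.le)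
  · intro hAv
    have hmem : ∀ y, F e ((S (m + 1)).O j []) y = some true → y ∈ H := by
      intro y hy
      obtain ⟨n, hn⟩ := hH y
      rw [← h.pre_XL hjm] at hy
      have g1 := hF e _ _ y _ (pre_prefix (XL S j)
        (le_max_left n ((S (m + 1)).τ []).length)) hn
      have g2 := hF e _ _ y _ (pre_prefix (XL S j)
        (le_max_right n ((S (m + 1)).τ []).length)) hy
      rw [g1] at g2
      exact of_decide_eq_true (Option.some_injective _ g2)
    have hcol : ∀ x y, x < y → y ≤ y3 → clr (XL S 0) x y = gB ((S (m + 1)).τ []) x y := by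
      intro x y hxy hy
      have hlen : prc x y < ((S (m + 1 + (prc x y + 1))).τ []).length := by
        have := h.len_ge (m + 1 + (prc x y + 1))
        omega
      rw [h.clr_XL hxy hlen, h.TT_τ (m + 1) (prc x y + 1) []]
      exact gB_prefix ((h.val (m + 1)).mono _ _ List.nil_prefix) (by omega) (by omega)
    refine hAv y0 (hmem y0 f0) y1 (hmem y1 f1) y2 (hmem y2 f2) y3 (hmem y3 f3) ?_
    obtain ⟨c1, c2, c3, c4, c5, c6, c7, c8, c9⟩ := hC
    refine ⟨c1, c2, c3, ?_, ?_, ?_, ?_, ?_, ?_⟩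
    · rw [hcol y0 y1 c1 (by omega)]; exact c4
    · rw [hcol y0 y2 (by omega) (by omega)]; exact c5
    · rw [hcol y0 y3 (by omega) (by omega)]; exact c6
    · rw [hcol y1 y2 (by omega) (by omega)]; exact c7
    · rw [hcol y1 y3 (by omega) (by omega)]; exact c8
    · rw [hcol y2 y3 c3 (by omega)]; exact c9

theorem modelB : ∃ X : ℕ → Set ℕ, (∀ m, TRed (X m) (X (m + 1))) ∧
    (∀ m Y, TRed Y (X m) → ∃ m' H, TRed H (X m') ∧ Unb H ∧
      ∀ x ∈ H, ∀ y ∈ H, ∀ z ∈ H, x < y → y < z → ∀ v, clr Y x y = v → clr Y y z = v →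
        clr Y x z = v) ∧
    ∃ Y, TRed Y (X 0) ∧ ∀ m H, TRed H (X m) → Unb H → ¬ Av (clr Y) H := by
  obtain ⟨F, hF, hF'⟩ := exists_enum
  obtain ⟨S, θ, h⟩ := exists_chainB F fun e => (hF e).2
  refine ⟨XL S, fun m => ?_, fun m Y hY => ?_, XL S 0, TRed.refl _, fun m H hH hu => ?_⟩
  · rw [h.XL_succ m]
    exact tred_join_right _ _
  · obtain ⟨R, h1, h2, h3⟩ := nf hY
    obtain ⟨e, rfl⟩ := hF' R h1 h2
    refine ⟨Nat.pair e m + 1, GLs S θ (Nat.pair e m), ?_, h.GL_unb _,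
      h.pos_lim (fun e => (hF e).2) h3⟩
    rw [h.XL_succ]
    exact tred_join_left _ _
  · obtain ⟨R, h1, h2, h3⟩ := nf hH
    obtain ⟨e, rfl⟩ := hF' R h1 h2
    exact h.neg_lim (fun e => (hF e).2) h3 hu

end Pool.Agent.Lib.MP_b4a791_lc
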