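import Pool.Agent.Lib.MP_b4a791_lc.B.Stage

/-!
# MP_b4a791_lc, Part B: the negative requirements
-/

namespace Pool.Agent.Lib.MP_b4a791_lc

/-- `F` at the oracle number `j` gives only finitely many elements. -/
def FinOut (S : Stage) (F : List Bool → ℕ → Option Bool) (j : ℕ) : Prop :=
  ∃ N, ∀ w y, N ≤ y → F (S.O j w) y ≠ some true

/-- `F` at the oracle number `j` gives four elements forming a copy of the pattern `1302` of the
base coloring. -/
def PatOut (S : Stage) (F : List Bool → ℕ → Option Bool) (j : ℕ) : Prop :=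
  ∃ y0 y1 y2 y3, y3 < (S.τ []).length ∧ F (S.O j []) y0 = some true ∧
    F (S.O j []) y1 = some true ∧ F (S.O j []) y2 = some true ∧ F (S.O j []) y3 = some true ∧
    Copy (gB (S.τ [])) y0 y1 y2 y3

private theorem Neg_len {S : Stage} (hS : SVal S) (w : Word) (n : ℕ) :
    ∃ w', Ext (dep w) w w' ∧ n ≤ (S.τ w').length := by
  induction n with
  | zero => exact ⟨w, Ext.refl _ _, Nat.zero_le _⟩
  | succ n ih =>
    obtain ⟨w', h1, h2⟩ := ih
    refine ⟨w' ++ [(dep w', 0)], h1.trans ((Ext.snoc w' (le_refl (dep w'))).mono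
      (h1.dep_le le_rfl)), ?_⟩
    have := hS.length_lt w' (dep w', 0)
    omega

private theorem Neg_open {S : Stage} (hS : SVal S) {F : List Bool → ℕ → Option Bool} (hF : MonoF F)
    (j : ℕ) (h : ∀ w : Word, w ≠ [] → ∃ w' y, Ext (dep w) w w' ∧ (S.τ w).length ≤ y ∧
      F (S.O j w') y = some true) (w : Word) (q : ℚ) :
    ∃ u y, Ext 1 (w ++ [(0, q)]) u ∧ (S.τ (w ++ [(0, q)])).length ≤ y ∧ y < (S.τ u).length ∧
      F (S.O j u) y = some true := by
  obtain ⟨w', y, h1, h2, h3⟩ := h (w ++ [(0, q)]) (by simp)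
  have hd : dep (w ++ [(0, q)]) = 1 := by
    rw [dep_snoc]
    simp
  rw [hd] at h1
  have hd' : 1 ≤ dep w' := h1.dep_le (le_of_eq hd.symm)
  obtain ⟨u, h4, h5⟩ := Neg_len hS w' (y + 1)
  refine ⟨u, y, h1.trans (h4.mono hd'), h2, by omega, ?_⟩
  exact hF _ _ _ _ (hS.Omono j w' u h4.pfx) h3

private theorem Neg_ext0 {w w' : Word} (h : w <+: w') : Ext 0 w w' := by
  obtain ⟨L, rfl⟩ := h
  exact ⟨L, rfl, fun _ _ => Nat.zero_le _⟩

private theorem Neg_pair {S : Stage} (hS : SVal S) {a b ua ub : Word} {qa qb : ℚ} {ya yb : ℕ}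
    (h1 : Ext 1 (a ++ [(0, qa)]) ua) (h2 : ua <+: b) (h3 : Ext 1 (b ++ [(0, qb)]) ub)
    (h4 : (S.τ (a ++ [(0, qa)])).length ≤ ya) (h5 : ya < (S.τ ua).length)
    (h6 : (S.τ (b ++ [(0, qb)])).length ≤ yb) (h7 : yb < (S.τ ub).length) (hq : qa ≠ qb) :
    gB (S.τ ub) ya yb = !decide (qa < qb) := by
  have hp : ∀ (w : Word) (q : ℚ), (path (w ++ [(0, q)]))[0]? = some q := by
    intro w q
    rw [path_snoc]
    simp
  have h8 : ua <+: b ++ [(0, qb)] := h2.trans (List.prefix_append _ _)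
  obtain ⟨l, p2, p4, e1, e2, e3, e4, e5, e6, e7⟩ := hS.sib (a ++ [(0, qa)]) ua (b ++ [(0, qb)]) ub
    0 qa qb h1 (Neg_ext0 h8) h3 (hp a qa) (hp b qb) hq
  rw [gB_sib e3 e4 e5 e1 e2 e6 h4 h5 h6 h7]
  by_cases hlt : qa < qb
  · rw [decide_eq_true (e7.2 hlt), decide_eq_true hlt]
  · rw [decide_eq_false (fun hh => hlt (e7.1 hh)), decide_eq_false hlt]

/-- If every nonempty word `w` has an extension in its innermost node with a new output, then
there are four sibling nodes in the positions `1, 3, 0, 2` with outputs. -/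
theorem exists_pat {S : Stage} (hS : SVal S) {F : List Bool → ℕ → Option Bool} (hF : MonoF F)
    (j : ℕ) (h : ∀ w : Word, w ≠ [] → ∃ w' y, Ext (dep w) w w' ∧ (S.τ w).length ≤ y ∧
      F (S.O j w') y = some true) :
    ∃ W0, W0 ≠ [] ∧ PatOut (S.restrict W0) F j := by
  obtain ⟨u1, y1, a1, b1, c1, d1⟩ := Neg_open hS hF j h [] 1
  obtain ⟨u2, y2, a2, b2, c2, d2⟩ := Neg_open hS hF j h u1 3
  obtain ⟨u3, y3, a3, b3, c3, d3⟩ := Neg_open hS hF j h u2 0
  obtain ⟨u4, y4, a4, b4, c4, d4⟩ := Neg_open hS hF j h u3 2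
  have p12 : u1 <+: u2 := (List.prefix_append u1 _).trans a2.pfx
  have p23 : u2 <+: u3 := (List.prefix_append u2 _).trans a3.pfx
  have p34 : u3 <+: u4 := (List.prefix_append u3 _).trans a4.pfx
  have p24 := p23.trans p34
  have p14 := p12.trans p24
  have l12 : y1 < y2 := by
    have := (hS.mono u1 _ (List.prefix_append u1 [(0, (3 : ℚ))])).length_le
    omega
  have l23 : y2 < y3 := by
    have := (hS.mono u2 _ (List.prefix_append u2 [(0, (0 : ℚ))])).length_le
    omega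
  have l34 : y3 < y4 := by
    have := (hS.mono u3 _ (List.prefix_append u3 [(0, (2 : ℚ))])).length_le
    omega
  have k24 := (hS.mono u2 u4 p24).length_le
  have k34 := (hS.mono u3 u4 p34).length_le
  have k14 := (hS.mono u1 u4 p14).length_le
  have k23 := (hS.mono u2 u3 p23).length_le
  have k13 := (hS.mono u1 u3 (p12.trans p23)).length_le
  have k12 := (hS.mono u1 u2 p12).length_le
  have h0 : (S.restrict u4).τ [] = S.τ u4 := by
    show S.τ (iot u4 []) = S.τ u4
    rw [iot_nil]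
  have h0' : (S.restrict u4).O j [] = S.O j u4 := by
    show S.O j (iot u4 []) = S.O j u4
    rw [iot_nil]
  refine ⟨u4, ?_, ?_⟩
  · intro h4
    rw [h4] at a4
    have := a4.len_le
    simp at this
  · unfold PatOut
    rw [h0, h0']
    refine ⟨y1, y2, y3, y4, c4, hF _ _ _ _ (hS.Omono j u1 u4 p14) d1,
      hF _ _ _ _ (hS.Omono j u2 u4 p24) d2, hF _ _ _ _ (hS.Omono j u3 u4 p34) d3, d4,
      l12, l23, l34, ?_, ?_, ?_, ?_, ?_, ?_⟩
    · rw [gB_prefix (hS.mono u2 u4 p24) (by omega) c2,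
        Neg_pair hS a1 (List.prefix_rfl) a2 b1 c1 b2 c2 (by norm_num)]
      norm_num
    · rw [gB_prefix (hS.mono u3 u4 p34) (by omega) c3,
        Neg_pair hS a1 p12 a3 b1 c1 b3 c3 (by norm_num)]
      norm_num
    · rw [Neg_pair hS a1 (p12.trans p23) a4 b1 c1 b4 c4 (by norm_num)]
      norm_num
    · rw [gB_prefix (hS.mono u3 u4 p34) (by omega) c3,
        Neg_pair hS a2 (List.prefix_rfl) a3 b2 c2 b3 c3 (by norm_num)]
      norm_num
    · rw [Neg_pair hS a2 p23 a4 b2 c2 b4 c4 (by norm_num)]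
      norm_num
    · rw [Neg_pair hS a3 (List.prefix_rfl) a4 b3 c3 b4 c4 (by norm_num)]
      norm_num

theorem neg_step {S : Stage} (hS : SVal S) {F : List Bool → ℕ → Option Bool} (hF : MonoF F)
    (j : ℕ) : ∃ W0, W0 ≠ [] ∧ (FinOut (S.restrict W0) F j ∨ PatOut (S.restrict W0) F j) := by
  by_cases h : ∃ w : Word, w ≠ [] ∧ ∀ w' y, Ext (dep w) w w' → (S.τ w).length ≤ y →
      F (S.O j w') y ≠ some true
  · obtain ⟨w, hw, h⟩ := h
    refine ⟨w, hw, Or.inl ⟨(S.τ w).length, fun v y hy => ?_⟩⟩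
    have h1 : Ext (dep w) w (iot w v) := by
      have := ext_iot w (w := []) (w' := v) (k := 0) ⟨v, by simp, fun _ _ => Nat.zero_le _⟩
      rwa [iot_nil, Nat.zero_add] at this
    exact h (iot w v) y h1 hy
  · push Not at h
    obtain ⟨W0, h1, h2⟩ := exists_pat hS hF j fun w hw => by
      obtain ⟨w', y, h1, h2, h3⟩ := h w hw
      exact ⟨w', y, h1, h2, h3⟩
    exact ⟨W0, h1, Or.inr h2⟩

private theorem Neg_embed_O (S : Stage) {j m : ℕ} (hj : j ≤ m) (σ : Word → Word)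
    (X : Word → List ℕ) (w : Word) : (S.embed m σ X).O j w = S.O j (σ w) := by
  have h : j ≠ m + 1 := by omega
  simp only [Stage.embed]
  rw [if_neg h]

/-- Both alternatives persist under restriction and embedding. -/
theorem FinOut.restrict {S : Stage} {F : List Bool → ℕ → Option Bool} {j : ℕ}
    (h : FinOut S F j) (W0 : Word) : FinOut (S.restrict W0) F j := by
  obtain ⟨N, hN⟩ := h
  exact ⟨N, fun w y hy => hN (iot W0 w) y hy⟩

theorem FinOut.embed {S : Stage} {F : List Bool → ℕ → Option Bool} {j : ℕ}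
    (h : FinOut S F j) {m : ℕ} (hj : j ≤ m) (σ : Word → Word) (X : Word → List ℕ) :
    FinOut (S.embed m σ X) F j := by
  obtain ⟨N, hN⟩ := h
  refine ⟨N, fun w y hy => ?_⟩
  rw [Neg_embed_O S hj σ X w]
  exact hN (σ w) y hy

/-- Transfer of `PatOut` along extensions. -/
private theorem Neg_patOut_of {S S' : Stage} (hS : SVal S) {F : List Bool → ℕ → Option Bool}
    (hF : MonoF F) {j : ℕ} (h : PatOut S F j) (V : Word) (hτ : S'.τ [] = S.τ V)
    (hO : S'.O j [] = S.O j V) : PatOut S' F j := by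
  obtain ⟨y0, y1, y2, y3, hy, h0, h1, h2, h3, hc⟩ := h
  have hp : S.τ [] <+: S.τ V := hS.mono [] V List.nil_prefix
  have hq : S.O j [] <+: S.O j V := hS.Omono j [] V List.nil_prefix
  obtain ⟨c1, c2, c3, c4, c5, c6, c7, c8, c9⟩ := hc
  have e : ∀ x y, x < (S.τ []).length → y < (S.τ []).length →
      gB (S.τ V) x y = gB (S.τ []) x y := fun x y hx hy => gB_prefix hp hx hy
  refine ⟨y0, y1, y2, y3, ?_, ?_, ?_, ?_, ?_, c1, c2, c3, ?_, ?_, ?_, ?_, ?_, ?_⟩
  · rw [hτ]
    exact lt_of_lt_of_le hy hp.length_le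
  · rw [hO]; exact hF _ _ _ _ hq h0
  · rw [hO]; exact hF _ _ _ _ hq h1
  · rw [hO]; exact hF _ _ _ _ hq h2
  · rw [hO]; exact hF _ _ _ _ hq h3
  · rw [hτ, e _ _ (by omega) (by omega)]; exact c4
  · rw [hτ, e _ _ (by omega) (by omega)]; exact c5
  · rw [hτ, e _ _ (by omega) (by omega)]; exact c6
  · rw [hτ, e _ _ (by omega) (by omega)]; exact c7
  · rw [hτ, e _ _ (by omega) (by omega)]; exact c8
  · rw [hτ, e _ _ (by omega) (by omega)]; exact c9

theorem PatOut.restrict {S : Stage} (hS : SVal S) {F : List Bool → ℕ → Option Bool}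
    (hF : MonoF F) {j : ℕ} (h : PatOut S F j) (W0 : Word) : PatOut (S.restrict W0) F j :=
  Neg_patOut_of hS hF h (iot W0 []) rfl rfl

theorem PatOut.embed {S : Stage} (hS : SVal S) {F : List Bool → ℕ → Option Bool}
    (hF : MonoF F) {j : ℕ} (h : PatOut S F j) {m : ℕ} (hj : j ≤ m) (σ : Word → Word)
    (X : Word → List ℕ) : PatOut (S.embed m σ X) F j :=
  Neg_patOut_of hS hF h (σ []) rfl (Neg_embed_O S hj σ X [])

end Pool.Agent.Lib.MP_b4a791_lc
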