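import Pool.Agent.Lib.MP_b4a791_lc.B.Stage
import Pool.Agent.Lib.MP_b4a791_lc.A.Emb

/-!
# MP_b4a791_lc, Part B: the positive requirements (`EM`)
-/

namespace Pool.Agent.Lib.MP_b4a791_lc

/-- The coloring of the points of stage words computed by `F` from the oracle number `j`. -/
def fS (S : Stage) (F : List Bool → ℕ → Option Bool) (j : ℕ) : Col := fun w a b =>
  match (S.pt w)[a]?, (S.pt w)[b]? with
  | some x, some y => F (S.O j w) (prc x y)
  | _, _ => none

/-- `F` at the oracle number `j` is not total. -/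
def NonTot (S : Stage) (F : List Bool → ℕ → Option Bool) (j : ℕ) : Prop :=
  ∃ n, ∀ w, F (S.O j w) n = none

/-- The coloring computed by `F` from the oracle number `j` is total and transitive on the points
of the stage. -/
def TransOut (S : Stage) (F : List Bool → ℕ → Option Bool) (j : ℕ) : Prop :=
  ∀ w, (∀ x ∈ S.pt w, ∀ y ∈ S.pt w, x < y → ∃ v, F (S.O j w) (prc x y) = some v) ∧
    ∀ x ∈ S.pt w, ∀ y ∈ S.pt w, ∀ z ∈ S.pt w, x < y → y < z → ∀ v,
      F (S.O j w) (prc x y) = some v → F (S.O j w) (prc y z) = some v →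
        F (S.O j w) (prc x z) = some v

private lemma fS_eq (S : Stage) (F : List Bool → ℕ → Option Bool) (j : ℕ) (w : Word)
    {a b x y : ℕ} (hx : (S.pt w)[a]? = some x) (hy : (S.pt w)[b]? = some y) :
    fS S F j w a b = F (S.O j w) (prc x y) := by
  simp only [fS, hx, hy]

private lemma get_of_prefix {α : Type*} {l l' : List α} (h : l <+: l') {i : ℕ} {x : α}
    (hx : l[i]? = some x) : l'[i]? = some x := by
  obtain ⟨t, rfl⟩ := h
  have hi : i < l.length := (List.getElem?_eq_some_iff.1 hx).1
  rw [List.getElem?_append_left hi]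
  exact hx

theorem fS_mono {S : Stage} (hS : SVal S) {F : List Bool → ℕ → Option Bool} (hF : MonoF F)
    (j : ℕ) (W W' : Word) (h : W <+: W') (x z : ℕ) (b : Bool) (hb : fS S F j W x z = some b) :
    fS S F j W' x z = some b := by
  rcases hx : (S.pt W)[x]? with _ | p
  · simp only [fS, hx] at hb
    cases hb
  · rcases hz : (S.pt W)[z]? with _ | q
    · simp only [fS, hx, hz] at hb
      cases hb
    · rw [fS_eq S F j W hx hz] at hb
      rw [fS_eq S F j W' (get_of_prefix (hS.pt_prefix h).1 hx)
        (get_of_prefix (hS.pt_prefix h).1 hz)]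
      exact hF _ _ _ _ (hS.Omono j _ _ h) hb

private lemma emb_lt {σ : Word → Word} {X : Word → List ℕ} (hE : PreEmb σ X) (w : Word) :
    ∀ x ∈ X w, x < (σ w).length := by
  induction w using List.reverseRecOn with
  | nil =>
    intro x hx
    have h1 := hE.len []
    rw [List.length_nil, List.length_eq_zero_iff] at h1
    rw [h1] at hx
    cases hx
  | append_singleton w m ih =>
    obtain ⟨y, h1, h2, h3⟩ := hE.new w m
    intro x hx
    rw [h1, List.mem_append, List.mem_singleton] at hx
    rcases hx with hx | rfl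
    · exact (ih x hx).trans_le (h2.trans h3.le)
    · exact h3

/-- If the coloring is dense, the Embedding Theorem applies. -/
theorem pos_dense {S : Stage} (hS : SVal S) {F : List Bool → ℕ → Option Bool} (hF : MonoF F)
    {j m : ℕ} (hj : j ≤ m) (hd : MD (fS S F j)) :
    ∃ σ X, PreEmb σ X ∧ TransOut (S.embed m σ X) F j := by
  obtain ⟨σ, X, hE⟩ := exists_emb hd []
  have hP : PreEmb σ X := ⟨hE.pre, hE.len, hE.new, hE.sib⟩
  refine ⟨σ, X, hP, ?_⟩
  intro w
  have hO : (S.embed m σ X).O j w = S.O j (σ w) := by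
    have : j ≠ m + 1 := by omega
    simp only [Stage.embed, if_neg this]
  have hpt : (S.embed m σ X).pt w = S.ptE σ X w := rfl
  have hsort := ((hS.embed m hP).pt_lt w).1
  rw [hpt] at hsort
  rw [hO, hpt]
  have key : ∀ x ∈ S.ptE σ X w, ∃ i a : ℕ, (X w)[i]? = some a ∧ (S.pt (σ w))[a]? = some x ∧
      (S.ptE σ X w)[i]? = some x := by
    intro x hx
    obtain ⟨i, hi⟩ := List.mem_iff_getElem?.1 hx
    have hi' := hi
    unfold Stage.ptE at hi
    rw [List.getElem?_map] at hi
    rcases ha : (X w)[i]? with _ | a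
    · rw [ha] at hi
      cases hi
    · rw [ha] at hi
      simp only [Option.map_some, Option.some.injEq] at hi
      have hal : a < (S.pt (σ w)).length := by
        rw [hS.ptlen]
        exact emb_lt hP w a (List.mem_of_getElem? ha)
      refine ⟨i, a, ha, ?_, hi'⟩
      rw [List.getElem?_eq_getElem hal] at hi ⊢
      simpa using hi
  have hlt : ∀ i i' x y : ℕ, (S.ptE σ X w)[i]? = some x → (S.ptE σ X w)[i']? = some y → x < y →
      i < i' := by
    intro i i' x y hx hy hxy
    obtain ⟨h1, h1'⟩ := List.getElem?_eq_some_iff.1 hx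
    obtain ⟨h2, h2'⟩ := List.getElem?_eq_some_iff.1 hy
    rcases lt_trichotomy i i' with h | h | h
    · exact h
    · subst h
      rw [h1'] at h2'
      omega
    · have := List.pairwise_iff_getElem.1 hsort i' i h2 h1 h
      rw [h1', h2'] at this
      omega
  constructor
  · intro x hx y hy hxy
    obtain ⟨i, a, ha, hax, hi⟩ := key x hx
    obtain ⟨i', b, hb, hby, hi'⟩ := key y hy
    obtain ⟨v, hv⟩ := hE.dec w i i' a b (hlt _ _ _ _ hi hi' hxy) ha hb
    rw [fS_eq S F j (σ w) hax hby] at hv
    exact ⟨v, hv⟩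
  · intro x hx y hy z hz hxy hyz v h1 h2
    obtain ⟨i, a, ha, hax, hi⟩ := key x hx
    obtain ⟨i', b, hb, hby, hi'⟩ := key y hy
    obtain ⟨i'', c, hc, hcz, hi''⟩ := key z hz
    have := hE.trans w i i' i'' a b c v (hlt _ _ _ _ hi hi' hxy) (hlt _ _ _ _ hi' hi'' hyz)
      ha hb hc (by rw [fS_eq S F j (σ w) hax hby]; exact h1)
      (by rw [fS_eq S F j (σ w) hby hcz]; exact h2)
    rw [fS_eq S F j (σ w) hax hcz] at this
    exact this

/-- If it is not dense, restrict to a word where some value is never decided. -/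
theorem pos_nondense {S : Stage} (hS : SVal S) {F : List Bool → ℕ → Option Bool} (hF : MonoF F)
    {j : ℕ} (hd : ¬ MD (fS S F j)) : ∃ W0, NonTot (S.restrict W0) F j := by
  by_contra hcon
  apply hd
  refine ⟨fun W W' h x z b hb => fS_mono hS hF j W W' h x z b hb, ?_⟩
  intro W x z hxz hz
  by_contra hno
  apply hcon
  have hxl : x < (S.pt W).length := by rw [hS.ptlen]; omega
  have hzl : z < (S.pt W).length := by rw [hS.ptlen]; omega
  refine ⟨W, prc ((S.pt W)[x]) ((S.pt W)[z]), ?_⟩
  intro w
  have hext : Ext (dep W) W (iot W w) := by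
    have h0 : Ext 0 [] w := ⟨w, by simp, fun m _ => Nat.zero_le _⟩
    have h1 := ext_iot W h0
    rw [iot_nil, Nat.zero_add] at h1
    exact h1
  have hpre : S.pt W <+: S.pt (iot W w) := (hS.pt_prefix hext.pfx).1
  change F (S.O j (iot W w)) _ = none
  rcases hv : F (S.O j (iot W w)) (prc ((S.pt W)[x]) ((S.pt W)[z])) with _ | v
  · rfl
  · exfalso
    apply hno
    refine ⟨iot W w, v, hext, ?_⟩
    rw [fS_eq S F j (iot W w) (get_of_prefix hpre (List.getElem?_eq_getElem hxl))
      (get_of_prefix hpre (List.getElem?_eq_getElem hzl))]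
    exact hv

theorem NonTot.embed {S : Stage} {F : List Bool → ℕ → Option Bool} {j : ℕ}
    (h : NonTot S F j) {m : ℕ} (hj : j ≤ m) (σ : Word → Word) (X : Word → List ℕ) :
    NonTot (S.embed m σ X) F j := by
  obtain ⟨n, hn⟩ := h
  refine ⟨n, fun w => ?_⟩
  have hO : (S.embed m σ X).O j w = S.O j (σ w) := by
    have : j ≠ m + 1 := by omega
    simp only [Stage.embed, if_neg this]
  rw [hO]
  exact hn _

end Pool.Agent.Lib.MP_b4a791_lc
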