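import Pool.Agent.Lib.MP_b4a791_lc.B.Str
import Pool.Agent.Lib.MP_b4a791_lc.B.Iot
import Pool.Agent.Lib.MP_b4a791_lc.C.MPlus

/-!
# MP_b4a791_lc, Part B: stages

A stage gives, for every word `w` of the current free word system, the base word `τ w`, the list
`pt w` of the base points of the nodes of `w`, and the strings `O j w` (initial segments of the
oracles `X j`), of length `(τ w).length`.
-/

namespace Pool.Agent.Lib.MP_b4a791_lc

structure Stage where
  τ : Word → Word
  pt : Word → List ℕ
  O : ℕ → Word → List Bool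

/-- Valid stages. -/
structure SVal (S : Stage) : Prop where
  mono : ∀ w w', w <+: w' → S.τ w <+: S.τ w'
  sib : SibStr S.τ
  ptlen : ∀ w, (S.pt w).length = w.length
  ptnew : ∀ w (mv : Move), ∃ x : ℕ, S.pt (w ++ [mv]) = S.pt w ++ [x] ∧ (S.τ w).length ≤ x ∧
    x < (S.τ (w ++ [mv])).length
  Olen : ∀ j w, (S.O j w).length = (S.τ w).length
  Omono : ∀ j w w', w <+: w' → S.O j w <+: S.O j w'
  O0 : ∀ w, S.O 0 w = Str0 (S.τ w)

private theorem Stage_get {α : Type} {l l' : List α} (h : l <+: l') {i : ℕ} (hi : i < l.length) :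
    l'[i]? = l[i]? := by
  obtain ⟨t, rfl⟩ := h
  exact List.getElem?_append_left hi

private theorem Stage_pre {α : Type} {l l' : List α} (h : ∀ i < l.length, l'[i]? = l[i]?) :
    l <+: l' := by
  rw [List.prefix_iff_eq_take]
  apply List.ext_getElem?
  intro i
  rw [List.getElem?_take]
  split
  · rename_i hi
    exact (h i hi).symm
  · rename_i hi
    rw [List.getElem?_eq_none (by omega)]

private theorem Stage_len {S : Stage} (hS : SVal S) {w w' : Word} (h : w <+: w') :
    (S.τ w).length ≤ (S.τ w').length := (hS.mono _ _ h).length_le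

/-- The new point of number `i`. -/
private theorem Stage_pt {S : Stage} (hS : SVal S) (w : Word) : ∀ i < w.length,
    ∃ p : ℕ, (S.pt w)[i]? = some p ∧ (S.τ (w.take i)).length ≤ p ∧
      p < (S.τ (w.take (i + 1))).length := by
  induction w using List.reverseRecOn with
  | nil => intro i hi; simp at hi
  | append_singleton w m ih =>
    intro i hi
    obtain ⟨x, hx, h1, h2⟩ := hS.ptnew w m
    have hl := hS.ptlen w
    rw [List.length_append, List.length_singleton] at hi
    rcases lt_or_ge i w.length with h | h
    · obtain ⟨p, hp, h3, h4⟩ := ih i h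
      refine ⟨p, ?_, ?_, ?_⟩
      · rw [hx, List.getElem?_append_left (by omega), hp]
      · rw [List.take_append_of_le_length (by omega)]
        exact h3
      · rw [List.take_append_of_le_length (by omega)]
        exact h4
    · have hi' : i = w.length := by omega
      subst hi'
      refine ⟨x, ?_, ?_, ?_⟩
      · rw [hx, List.getElem?_append_right (by omega), hl]
        simp
      · rw [List.take_left]
        exact h1
      · rw [List.take_of_length_le (by simp)]
        exact h2

private theorem Stage_ptpre {S : Stage} (hS : SVal S) {w w' : Word} (h : w <+: w') :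
    S.pt w <+: S.pt w' := by
  obtain ⟨L, rfl⟩ := h
  induction L using List.reverseRecOn with
  | nil => simp
  | append_singleton L m ih =>
    obtain ⟨x, hx, -, -⟩ := hS.ptnew (w ++ L) m
    rw [← List.append_assoc, hx]
    exact ih.trans (List.prefix_append _ _)

/-- The initial stage. -/
noncomputable def Stage.init : Stage := ⟨fun w => w, fun w => List.range w.length, fun _ w => Str0 w⟩

theorem SVal.init : SVal Stage.init where
  mono := fun _ _ h => h
  sib := SibStr.id
  ptlen := fun w => by simp [Stage.init]
  ptnew := fun w mv => by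
    refine ⟨w.length, ?_, ?_, ?_⟩
    · simp [Stage.init, List.range_succ]
    · simp [Stage.init]
    · simp [Stage.init]
  Olen := fun j w => by simp [Stage.init, length_Str0]
  Omono := fun j w w' h => by
    show Str0 w <+: Str0 w'
    exact Str0_prefix h
  O0 := fun w => rfl

/-- Restriction to the words below `W0`. -/
def Stage.restrict (S : Stage) (W0 : Word) : Stage :=
  ⟨fun w => S.τ (iot W0 w), fun w => (S.pt (iot W0 w)).drop W0.length,
    fun j w => S.O j (iot W0 w)⟩

theorem SVal.restrict {S : Stage} (hS : SVal S) (W0 : Word) : SVal (S.restrict W0) where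
  mono := fun w w' h => hS.mono _ _ (iot_prefix W0 h)
  sib := (sibStr_iot W0).comp hS.sib
  ptlen := fun w => by
    show ((S.pt (iot W0 w)).drop W0.length).length = w.length
    rw [List.length_drop, hS.ptlen, length_iot]
    omega
  ptnew := fun w mv => by
    obtain ⟨x, hx, h1, h2⟩ := hS.ptnew (iot W0 w) (mv.1 + dep W0, mv.2)
    refine ⟨x, ?_, h1, ?_⟩
    · show (S.pt (iot W0 (w ++ [mv]))).drop W0.length = (S.pt (iot W0 w)).drop W0.length ++ [x]
      rw [iot_snoc, hx, List.drop_append_of_le_length]
      rw [hS.ptlen, length_iot]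
      omega
    · show x < (S.τ (iot W0 (w ++ [mv]))).length
      rw [iot_snoc]
      exact h2
  Olen := fun j w => hS.Olen j _
  Omono := fun j w w' h => hS.Omono j _ _ (iot_prefix W0 h)
  O0 := fun w => hS.O0 _

/-- Base points of the designated points. -/
def Stage.ptE (S : Stage) (σ : Word → Word) (X : Word → List ℕ) (w : Word) : List ℕ :=
  (X w).map fun i => ((S.pt (σ w))[i]?).getD 0

/-- Composition with an embedding; the designated points become the set coded in `O (m+1)`. -/
def Stage.embed (S : Stage) (m : ℕ) (σ : Word → Word) (X : Word → List ℕ) : Stage :=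
  ⟨fun w => S.τ (σ w), S.ptE σ X, fun j w => if j = m + 1 then
    jn (sL (S.ptE σ X w) (S.τ (σ w)).length) (S.O m (σ w)) (S.τ (σ w)).length else S.O j (σ w)⟩

/-- What is needed of an embedding. -/
structure PreEmb (σ : Word → Word) (X : Word → List ℕ) : Prop where
  pre : ∀ w w', w <+: w' → σ w <+: σ w'
  len : ∀ w, (X w).length = w.length
  new : ∀ w (m : Move), ∃ x : ℕ, X (w ++ [m]) = X w ++ [x] ∧ (σ w).length ≤ x ∧
    x < (σ (w ++ [m])).length
  sib : SibStr σ

theorem PreEmb.id : PreEmb (fun w => w) (fun w => List.range w.length) where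
  pre := fun _ _ h => h
  len := fun w => by simp
  new := fun w m => ⟨w.length, by simp [List.range_succ], le_rfl, by simp⟩
  sib := SibStr.id

private theorem Stage_X {σ : Word → Word} {X : Word → List ℕ} (hE : PreEmb σ X) (w : Word) :
    ∀ i ∈ X w, i < (σ w).length := by
  induction w using List.reverseRecOn with
  | nil =>
    intro i hi
    have h0 : (X []).length = 0 := hE.len []
    rw [List.length_eq_zero_iff] at h0
    rw [h0] at hi
    simp at hi
  | append_singleton w m ih =>
    intro i hi
    obtain ⟨x, hx, h1, h2⟩ := hE.new w m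
    rw [hx, List.mem_append, List.mem_singleton] at hi
    rcases hi with hi | rfl
    · exact (ih i hi).trans_le (hE.pre _ _ (List.prefix_append w [m])).length_le
    · exact h2

private theorem Stage_ptE {S : Stage} (hS : SVal S) {σ : Word → Word} {X : Word → List ℕ}
    (hE : PreEmb σ X) (w : Word) (mv : Move) : ∃ x : ℕ,
      S.ptE σ X (w ++ [mv]) = S.ptE σ X w ++ [x] ∧ (S.τ (σ w)).length ≤ x ∧
      x < (S.τ (σ (w ++ [mv]))).length := by
  obtain ⟨i, hi, h1, h2⟩ := hE.new w mv
  have hpre : σ w <+: σ (w ++ [mv]) := hE.pre _ _ (List.prefix_append w [mv])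
  obtain ⟨p, hp, h3, h4⟩ := Stage_pt hS (σ (w ++ [mv])) i h2
  refine ⟨p, ?_, ?_, ?_⟩
  · simp only [Stage.ptE, hi, List.map_append, List.map_cons, List.map_nil, hp, Option.getD_some]
    congr 1
    refine List.map_congr_left fun j hj => ?_
    have hj' : j < (S.pt (σ w)).length := by
      rw [hS.ptlen]
      exact Stage_X hE w j hj
    rw [Stage_get (Stage_ptpre hS hpre) hj']
  · refine le_trans (Stage_len hS ?_) h3
    have := List.take_prefix_take_left (l := σ (w ++ [mv])) h1
    rw [← List.prefix_iff_eq_take.1 hpre] at this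
    exact this
  · exact lt_of_lt_of_le h4 (Stage_len hS (List.take_prefix _ _))

private theorem Stage_ptEpre {S : Stage} (hS : SVal S) {σ : Word → Word} {X : Word → List ℕ}
    (hE : PreEmb σ X) {w w' : Word} (h : w <+: w') :
    S.ptE σ X w <+: S.ptE σ X w' ∧
      ∀ x ∈ S.ptE σ X w', x < (S.τ (σ w)).length → x ∈ S.ptE σ X w := by
  obtain ⟨L, rfl⟩ := h
  induction L using List.reverseRecOn with
  | nil =>
    rw [List.append_nil]
    exact ⟨List.prefix_refl _, fun x hx _ => hx⟩
  | append_singleton L m ih =>
    obtain ⟨x, hx, h1, -⟩ := Stage_ptE hS hE (w ++ L) m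
    rw [← List.append_assoc, hx]
    refine ⟨ih.1.trans (List.prefix_append _ _), ?_⟩
    intro y hy hlt
    rw [List.mem_append, List.mem_singleton] at hy
    rcases hy with hy | rfl
    · exact ih.2 y hy hlt
    · have := Stage_len hS (hE.pre _ _ (List.prefix_append w L))
      omega

private theorem Stage_jn (δ σ : List Bool) (m i : ℕ) (hi : i < m) :
    (jn δ σ m)[i]? = some (if i % 2 = 0 then (δ[i / 2]?).getD false
      else (σ[i / 2]?).getD false) := by
  simp [jn, List.getElem?_range hi]

private theorem Stage_sL (G : List ℕ) (m i : ℕ) (hi : i < m) :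
    (sL G m)[i]? = some (decide (i ∈ G)) := by
  simp [sL, List.getElem?_range hi]

private theorem Stage_jnlen (δ σ : List Bool) (m : ℕ) : (jn δ σ m).length = m := by
  simp [jn]

theorem SVal.embed {S : Stage} (hS : SVal S) (m : ℕ) {σ : Word → Word} {X : Word → List ℕ}
    (hE : PreEmb σ X) : SVal (S.embed m σ X) where
  mono := fun w w' h => hS.mono _ _ (hE.pre _ _ h)
  sib := hE.sib.comp hS.sib
  ptlen := fun w => by
    show (S.ptE σ X w).length = w.length
    simp [Stage.ptE, hE.len]
  ptnew := fun w mv => Stage_ptE hS hE w mv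
  Olen := fun j w => by
    show (if j = m + 1 then jn (sL (S.ptE σ X w) (S.τ (σ w)).length) (S.O m (σ w))
      (S.τ (σ w)).length else S.O j (σ w)).length = (S.τ (σ w)).length
    split
    · exact Stage_jnlen _ _ _
    · exact hS.Olen _ _
  Omono := fun j w w' h => by
    show (if j = m + 1 then jn (sL (S.ptE σ X w) (S.τ (σ w)).length) (S.O m (σ w))
      (S.τ (σ w)).length else S.O j (σ w)) <+:
      (if j = m + 1 then jn (sL (S.ptE σ X w') (S.τ (σ w')).length) (S.O m (σ w'))
      (S.τ (σ w')).length else S.O j (σ w'))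
    have hp := hE.pre _ _ h
    split
    · apply Stage_pre
      intro i hi
      rw [Stage_jnlen] at hi
      have hle := Stage_len hS hp
      rw [Stage_jn _ _ _ _ hi, Stage_jn _ _ _ _ (by omega)]
      congr 1
      split
      · rw [Stage_sL _ _ _ (by omega), Stage_sL _ _ _ (by omega)]
        simp only [Option.getD_some]
        rw [decide_eq_decide]
        obtain ⟨h1, h2⟩ := Stage_ptEpre hS hE h
        exact ⟨fun hx => h2 _ hx (by omega), fun hx => h1.subset hx⟩
      · rw [Stage_get (hS.Omono m _ _ hp) (by rw [hS.Olen]; omega)]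
    · exact hS.Omono _ _ _ hp
  O0 := fun w => by
    show (if 0 = m + 1 then jn (sL (S.ptE σ X w) (S.τ (σ w)).length) (S.O m (σ w))
      (S.τ (σ w)).length else S.O 0 (σ w)) = Str0 (S.τ (σ w))
    rw [if_neg (by omega)]
    exact hS.O0 _

/-- Points are increasing, below the length of the base word. -/
theorem SVal.pt_lt {S : Stage} (hS : SVal S) (w : Word) :
    (S.pt w).Pairwise (· < ·) ∧ ∀ x ∈ S.pt w, x < (S.τ w).length := by
  have hl := hS.ptlen w
  refine ⟨?_, ?_⟩
  · rw [List.pairwise_iff_getElem]
    intro i j hi hj hij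
    obtain ⟨p, hp, -, h2⟩ := Stage_pt hS w i (by omega)
    obtain ⟨q, hq, h3, -⟩ := Stage_pt hS w j (by omega)
    rw [List.getElem?_eq_getElem hi, Option.some.injEq] at hp
    rw [List.getElem?_eq_getElem hj, Option.some.injEq] at hq
    rw [hp, hq]
    have := Stage_len hS (List.take_prefix_take_left (l := w) (show i + 1 ≤ j by omega))
    omega
  · intro x hx
    obtain ⟨i, hi, hxi⟩ := List.mem_iff_getElem.1 hx
    obtain ⟨p, hp, -, h2⟩ := Stage_pt hS w i (by omega)
    rw [List.getElem?_eq_getElem hi, Option.some.injEq] at hp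
    rw [← hxi, hp]
    exact lt_of_lt_of_le h2 (Stage_len hS (List.take_prefix _ _))

/-- The base words get longer. -/
theorem SVal.length_lt {S : Stage} (hS : SVal S) (w : Word) (mv : Move) :
    (S.τ w).length < (S.τ (w ++ [mv])).length := by
  obtain ⟨x, _, h1, h2⟩ := hS.ptnew w mv
  omega

/-- Points of a prefix. -/
theorem SVal.pt_prefix {S : Stage} (hS : SVal S) {w w' : Word} (h : w <+: w') :
    S.pt w <+: S.pt w' ∧ ∀ x ∈ S.pt w', x < (S.τ w).length → x ∈ S.pt w := by
  refine ⟨Stage_ptpre hS h, ?_⟩
  intro x hx hlt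
  have hl := hS.ptlen w
  have hl' := hS.ptlen w'
  obtain ⟨i, hi, hxi⟩ := List.mem_iff_getElem.1 hx
  rcases lt_or_ge i w.length with h1 | h1
  · have h2 := Stage_get (Stage_ptpre hS h) (i := i) (by omega)
    rw [List.getElem?_eq_getElem hi, List.getElem?_eq_getElem (by omega), Option.some.injEq] at h2
    rw [← hxi, h2]
    exact List.getElem_mem _
  · obtain ⟨p, hp, h2, -⟩ := Stage_pt hS w' i (by omega)
    rw [List.getElem?_eq_getElem hi, Option.some.injEq] at hp
    have h3 : w <+: w'.take i := by
      have := List.take_prefix_take_left (l := w') h1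
      rw [← List.prefix_iff_eq_take.1 h] at this
      exact this
    have := Stage_len hS h3
    omega

end Pool.Agent.Lib.MP_b4a791_lc
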