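import Pool.Agent.Lib.MP_b4a791_lc.B.Neg
import Pool.Agent.Lib.MP_b4a791_lc.B.Pos

/-!
# MP_b4a791_lc, Part B: one stage of the construction
-/

namespace Pool.Agent.Lib.MP_b4a791_lc

/-- The relation between consecutive stages `m` and `m + 1`. -/
structure Next (m : ℕ) (S S' : Stage) (θ : Word → Word) : Prop where
  val : SVal S'
  ne : θ [] ≠ []
  mono : ∀ w w', w <+: w' → θ w <+: θ w'
  τ : ∀ w, S'.τ w = S.τ (θ w)
  O : ∀ i w, i ≠ m + 1 → S'.O i w = S.O i (θ w)
  Onew : ∀ w, S'.O (m + 1) w =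
    jn (sL (S'.pt w) (S'.τ w).length) (S'.O m w) (S'.τ w).length

private theorem Step_next {S S1 : Stage} {m : ℕ} (_hS : SVal S) (W1 : Word) (hW1 : W1 ≠ [])
    (hS1 : SVal S1) (ρ : Word → Word) (hρ : ∀ w, ∃ u, ρ w = iot W1 u)
    (hρm : ∀ w w', w <+: w' → ρ w <+: ρ w') (hτ : ∀ w, S1.τ w = S.τ (ρ w))
    (hO : ∀ i w, S1.O i w = S.O i (ρ w)) {σ : Word → Word} {X : Word → List ℕ}
    (hE : PreEmb σ X) : Next m S (S1.embed m σ X) (fun w => ρ (σ w)) where
  val := hS1.embed m hE
  ne := by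
    intro h
    obtain ⟨u, hu⟩ := hρ (σ [])
    have h1 : (ρ (σ [])).length = 0 := by
      have h2 : ρ (σ []) = [] := h
      rw [h2]
      rfl
    rw [hu, length_iot] at h1
    have h3 : 0 < W1.length := List.length_pos_iff.2 hW1
    omega
  mono := fun w w' h => hρm _ _ (hE.pre _ _ h)
  τ := fun w => hτ (σ w)
  O := fun i w hi => by
    simp only [Stage.embed]
    rw [if_neg hi]
    exact hO i (σ w)
  Onew := fun w => by
    have h : ¬ (m = m + 1) := by omega
    simp only [Stage.embed, if_true, if_neg h]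

/-- Stage `m`: `S' = ((S.restrict W1).restrict W2).embed m σ X` with `neg_step`, then `pos_dense`
(then `W2 = []`, note that restriction to `[]` changes nothing essential; or treat the two cases
separately) or `pos_nondense` with `PreEmb.id`. -/
theorem stage_step {S : Stage} (hS : SVal S) {F : List Bool → ℕ → Option Bool} (hF : MonoF F)
    {j m : ℕ} (hj : j ≤ m) : ∃ S' θ, Next m S S' θ ∧ (NonTot S' F j ∨ TransOut S' F j) ∧
      (FinOut S' F j ∨ PatOut S' F j) := by
  obtain ⟨W1, hW1, hneg⟩ := neg_step hS hF j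
  have hS1 : SVal (S.restrict W1) := hS.restrict W1
  by_cases hd : MD (fS (S.restrict W1) F j)
  · obtain ⟨σ, X, hE, hT⟩ := pos_dense hS1 hF hj hd
    refine ⟨(S.restrict W1).embed m σ X, fun w => iot W1 (σ w), ?_, Or.inr hT, ?_⟩
    · exact Step_next hS W1 hW1 hS1 (fun w => iot W1 w) (fun w => ⟨w, rfl⟩)
        (fun w w' h => iot_prefix W1 h) (fun w => rfl) (fun i w => rfl) hE
    · rcases hneg with h | h
      · exact Or.inl (h.embed hj σ X)
      · exact Or.inr (h.embed hS1 hF hj σ X)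
  · obtain ⟨W2, hN⟩ := pos_nondense hS1 hF hd
    have hS2 : SVal ((S.restrict W1).restrict W2) := hS1.restrict W2
    refine ⟨((S.restrict W1).restrict W2).embed m (fun w => w) (fun w => List.range w.length),
      fun w => iot W1 (iot W2 w), ?_, Or.inl (hN.embed hj _ _), ?_⟩
    · exact Step_next hS W1 hW1 hS2 (fun w => iot W1 (iot W2 w)) (fun w => ⟨iot W2 w, rfl⟩)
        (fun w w' h => iot_prefix W1 (iot_prefix W2 h)) (fun w => rfl) (fun i w => rfl)
        PreEmb.id
    · rcases hneg with h | h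
      · exact Or.inl ((h.restrict W2).embed hj _ _)
      · exact Or.inr ((h.restrict hS1 hF W2).embed hS2 hF hj _ _)

/-- The whole sequence of stages. -/
structure Chain (F : ℕ → List Bool → ℕ → Option Bool) (S : ℕ → Stage) (θ : ℕ → Word → Word) :
    Prop where
  val : ∀ n, SVal (S n)
  next : ∀ n, Next n (S n) (S (n + 1)) (θ n)
  pos : ∀ n, NonTot (S (n + 1)) (F n.unpair.1) n.unpair.2 ∨
    TransOut (S (n + 1)) (F n.unpair.1) n.unpair.2
  neg : ∀ n, FinOut (S (n + 1)) (F n.unpair.1) n.unpair.2 ∨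
    PatOut (S (n + 1)) (F n.unpair.1) n.unpair.2

theorem exists_chainB (F : ℕ → List Bool → ℕ → Option Bool) (hF : ∀ e, MonoF (F e)) :
    ∃ S θ, Chain F S θ := by
  have hstep : ∀ (n : ℕ) (T : {S : Stage // SVal S}), ∃ T' : {S : Stage // SVal S}, ∃ θ,
      Next n T.1 T'.1 θ ∧
      (NonTot T'.1 (F n.unpair.1) n.unpair.2 ∨ TransOut T'.1 (F n.unpair.1) n.unpair.2) ∧
      (FinOut T'.1 (F n.unpair.1) n.unpair.2 ∨ PatOut T'.1 (F n.unpair.1) n.unpair.2) := by
    intro n T
    obtain ⟨S', θ, h1, h2, h3⟩ := stage_step T.2 (hF n.unpair.1) (Nat.unpair_right_le n)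
    exact ⟨⟨S', h1.val⟩, θ, h1, h2, h3⟩
  choose nx θ0 h using hstep
  let T : ℕ → {S : Stage // SVal S} := fun n => Nat.rec ⟨Stage.init, SVal.init⟩ (fun n T => nx n T) n
  have hT : ∀ n, T (n + 1) = nx n (T n) := fun n => rfl
  refine ⟨fun n => (T n).1, fun n => θ0 n (T n), ?_⟩
  exact
    { val := fun n => (T n).2
      next := fun n => (h n (T n)).1
      pos := fun n => (h n (T n)).2.1
      neg := fun n => (h n (T n)).2.2 }

end Pool.Agent.Lib.MP_b4a791_lc
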