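import Pool.Agent.Lib.MP_b4a791_lc.A.Sib
import Pool.Agent.Lib.MP_b4a791_lc.C.Defs

/-!
# MP_b4a791_lc, Part B: the base coloring
-/

namespace Pool.Agent.Lib.MP_b4a791_lc

/-- The base coloring: `false` iff the path of `x` is lexicographically smaller than the path
of `y`. -/
def gB (U : Word) (x y : ℕ) : Bool := !decide (path (U.take (x + 1)) < path (U.take (y + 1)))

open Classical in
/-- The initial segment of length `U.length` of the code of the base coloring. -/
noncomputable def Str0 (U : Word) : List Bool :=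
  (List.range U.length).map fun n =>
    decide (∃ x y, x < y ∧ y ≤ n ∧ prc x y = n ∧ gB U x y = true)

lemma length_Str0 (U : Word) : (Str0 U).length = U.length := by simp [Str0]

lemma gB_prefix {U U' : Word} (h : U <+: U') {x y : ℕ} (hx : x < U.length) (hy : y < U.length) :
    gB U' x y = gB U x y := by
  obtain ⟨L, rfl⟩ := h
  unfold gB
  rw [List.take_append_of_le_length (by omega), List.take_append_of_le_length (by omega)]

lemma prc_ge {x y : ℕ} (h : x < y) : y ≤ prc x y := by
  unfold prc
  have h1 : x + y ≤ (x + y) * (x + y) := Nat.le_mul_self _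
  omega

lemma prc_inj {x y x' y' : ℕ} (h : prc x y = prc x' y') : x = x' ∧ y = y' := by
  unfold prc at h
  have h1 : x + y = x' + y' := by
    rcases Nat.lt_trichotomy (x + y) (x' + y') with h2 | h2 | h2
    · exfalso
      have h3 : (x + y + 1) * (x + y + 1) ≤ (x' + y') * (x' + y') :=
        Nat.mul_le_mul h2 h2
      have h4 : (x + y + 1) * (x + y + 1) = (x + y) * (x + y) + 2 * (x + y) + 1 := by ring
      omega
    · exact h2
    · exfalso
      have h3 : (x' + y' + 1) * (x' + y' + 1) ≤ (x + y) * (x + y) :=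
        Nat.mul_le_mul h2 h2
      have h4 : (x' + y' + 1) * (x' + y' + 1) = (x' + y') * (x' + y') + 2 * (x' + y') + 1 := by ring
      omega
  rw [h1] at h
  omega

lemma Str0_prefix {U U' : Word} (h : U <+: U') : Str0 U <+: Str0 U' := by
  have hlen : U.length ≤ U'.length := h.length_le
  rw [List.prefix_iff_eq_take, length_Str0]
  unfold Str0
  rw [← List.map_take, List.take_range, min_eq_left hlen]
  refine List.map_congr_left fun n hn => ?_
  rw [List.mem_range] at hn
  rw [decide_eq_decide]
  constructor
  · rintro ⟨x, y, h1, h2, h3, h4⟩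
    exact ⟨x, y, h1, h2, h3, by rw [gB_prefix h (by omega) (by omega)]; exact h4⟩
  · rintro ⟨x, y, h1, h2, h3, h4⟩
    exact ⟨x, y, h1, h2, h3, by rw [gB_prefix h (by omega) (by omega)] at h4; exact h4⟩

/-- Value of a bit of `Str0`. -/
lemma Str0_get {U : Word} {x y : ℕ} (h : x < y) (hn : prc x y < U.length) :
    (Str0 U)[prc x y]? = some (gB U x y) := by
  unfold Str0
  rw [List.getElem?_map, List.getElem?_range hn]
  simp only [Option.map_some, Option.some.injEq]
  classical
  by_cases hg : gB U x y = true
  · rw [hg]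
    exact decide_eq_true ⟨x, y, h, prc_ge h, rfl, hg⟩
  · have hg' : gB U x y = false := by simpa using hg
    rw [hg']
    refine decide_eq_false ?_
    rintro ⟨x', y', h1, h2, h3, h4⟩
    obtain ⟨rfl, rfl⟩ := prc_inj h3
    exact hg h4

/-- Lexicographic comparison. -/
lemma lex_lt_iff (a b c : List ℚ) {p q : ℚ} (h : p ≠ q) :
    (a ++ p :: b < a ++ q :: c) ↔ p < q := by
  induction a with
  | nil =>
    rw [List.nil_append, List.nil_append, List.cons_lt_cons_iff]
    constructor
    · rintro (h1 | ⟨h1, -⟩)
      · exact h1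
      · exact absurd h1 h
    · exact fun h1 => Or.inl h1
  | cons x a ih =>
    rw [List.cons_append, List.cons_append, List.cons_lt_cons_iff]
    constructor
    · rintro (h1 | ⟨-, h1⟩)
      · exact absurd h1 (lt_irrefl x)
      · exact ih.1 h1
    · exact fun h1 => Or.inr ⟨rfl, ih.2 h1⟩

private lemma Str_path {V W : Word} {l : ℕ} {p : ℚ} (h : Ext (l + 1) V W)
    (hp : (path V)[l]? = some p) : ∃ b, path W = (path V).take l ++ p :: b := by
  have h1 : l + 1 ≤ dep V := path_get_lt hp
  have h2 := h.take h1
  refine ⟨(path W).drop (l + 1), ?_⟩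
  conv_lhs => rw [← List.take_append_drop (l + 1) (path W)]
  rw [h2, List.take_add_one, hp]
  simp

/-- The color of points inserted in sibling nodes. -/
theorem gB_sib {V2 U2 V4 U4 : Word} {l : ℕ} {p2 p4 : ℚ} (h1 : Ext (l + 1) V2 U2)
    (h2 : Ext l U2 V4) (h3 : Ext (l + 1) V4 U4) (h4 : (path V2)[l]? = some p2)
    (h5 : (path V4)[l]? = some p4) (h6 : p2 ≠ p4) {y y' : ℕ} (hy : V2.length ≤ y)
    (hy2 : y < U2.length) (hy' : V4.length ≤ y') (hy4 : y' < U4.length) :
    gB U4 y y' = !decide (p2 < p4) := by
  have h24 : U2 <+: U4 := h2.pfx.trans h3.pfx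
  have hU2 : U2.length ≤ U4.length := h24.length_le
  have hV2U4 : V2 <+: U4 := h1.pfx.trans h24
  -- the word of `y`
  have e1 : V2 <+: U4.take (y + 1) := by
    refine List.prefix_of_prefix_length_le hV2U4 (List.take_prefix _ _) ?_
    rw [List.length_take]; omega
  have e2 : U4.take (y + 1) <+: U2 := by
    refine List.prefix_of_prefix_length_le (List.take_prefix _ _) h24 ?_
    rw [List.length_take]; omega
  obtain ⟨b, hb⟩ := Str_path (h1.of_prefix e1 e2) h4
  -- the word of `y'`
  have e3 : V4 <+: U4.take (y' + 1) := by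
    refine List.prefix_of_prefix_length_le h3.pfx (List.take_prefix _ _) ?_
    rw [List.length_take]; omega
  obtain ⟨c, hc⟩ := Str_path (h3.of_prefix e3 (List.take_prefix _ _)) h5
  have e5 : (path V4).take l = (path V2).take l := by
    have h6' : l ≤ dep V2 := (path_get_lt h4).le
    exact ((h1.mono (Nat.le_succ l)).trans h2).take h6'
  unfold gB
  rw [hb, hc, e5]
  simp only [lex_lt_iff _ _ _ h6]

end Pool.Agent.Lib.MP_b4a791_lc
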